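import Pool.Agent.BE01.Stmts

/-!
BE01, module APX: approximations of all orders.
-/

namespace Pool.Agent.Helper26_BE01

open Set Filter Topology Pool.Agent.BE01
open scoped InnerProductSpace

noncomputable section

theorem slv_mono {H : Type} [NormedAddCommGroup H] [InnerProductSpace ℝ H]
    {S : H →L[ℝ] H} {ω : ℝ} {φ : H} {M M' : ℕ} (h : Slv S ω φ M') (hM : M ≤ M') :
    Slv S ω φ M :=
  ⟨h.one, fun n hn h3 hle F => h.odd n hn h3 (hle.trans hM) F⟩

theorem apx (hBas : BasStmt) (hStp : StpStmt) : ApxStmt := by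
  intro X Y H _ _ _ _ _ _ A W p a0 ω φ K hp hω hφ hS hpos hK
  induction K, hK using Nat.le_induction with
  | base =>
    intro hs
    obtain ⟨Q, hQ, hc⟩ := hBas X Y H A W p a0 ω φ hp hω hS hpos
    obtain ⟨b', P', q', Q', h⟩ := hStp X Y H A W p a0 ω φ 0 0 0 _ _ Q hp hω hφ hS
      (slv_mono hs (by omega)) hQ
    refine ⟨_, _, P', q', Q', h, ?_⟩
    rw [← hc]
    simp
  | succ K hK ih =>
    intro hs
    obtain ⟨a, b, P, q, Q, hA, hc⟩ := ih (slv_mono hs (by
      have : 2 * p * K ≤ 2 * p * (K + 1) := Nat.mul_le_mul_left _ (Nat.le_succ K)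
      omega))
    obtain ⟨b', P', q', Q', h⟩ := hStp X Y H A W p a0 ω φ K a b P q Q hp hω hφ hS hs hA
    refine ⟨_, _, P', q', Q', h, ?_⟩
    rw [← hc, Polynomial.coeff_add, Polynomial.coeff_monomial, if_neg (by omega), add_zero]

end

end Pool.Agent.Helper26_BE01
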