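import Pool.Agent.BE01.Stmts

/-!
BE01, module LID: the curve of the first derivatives of the solution.
-/

namespace Pool.Agent.Helper26_BE01

open Set Filter Topology Pool.Agent.BE01
open scoped InnerProductSpace

noncomputable section

/-- a derivative in a larger space, with continuous candidate, is a derivative in the smaller -/
theorem hasDerivAt_of_inj {Y H : Type} [NormedAddCommGroup Y] [NormedSpace ℝ Y]
    [CompleteSpace Y] [NormedAddCommGroup H] [NormedSpace ℝ H] [CompleteSpace H]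
    (j : Y →L[ℝ] H) (hj : Function.Injective j) (z y : ℝ → Y) (t0 : ℝ)
    (hy : ContinuousOn y (Ioi t0)) (hz : ∀ t > t0, HasDerivAt (fun s => j (z s)) (j (y t)) t) :
    ∀ t > t0, HasDerivAt z (y t) t := by
  intro t ht
  have key : ∀ s > t0, z s = z t + ∫ r in t..s, y r := by
    intro s hs
    apply hj
    have hsub : uIcc t s ⊆ Ioi t0 := by
      intro r hr
      have h1 : min t s ≤ r := hr.1
      exact lt_of_lt_of_le (lt_min ht hs) h1
    have hint : IntervalIntegrable y MeasureTheory.volume t s :=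
      (hy.mono hsub).intervalIntegrable
    have hjint : IntervalIntegrable (fun r => j (y r)) MeasureTheory.volume t s :=
      (j.continuous.comp_continuousOn (hy.mono hsub)).intervalIntegrable
    have h1 := intervalIntegral.integral_eq_sub_of_hasDerivAt (f := fun s => j (z s))
      (f' := fun r => j (y r)) (a := t) (b := s) (fun r hr => hz r (hsub hr)) hjint
    rw [map_add, ← j.intervalIntegral_comp_comm hint, h1]
    abel
  have h2 : HasDerivAt (fun u => ∫ r in t..u, y r) (y t) t := by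
    apply intervalIntegral.integral_hasDerivAt_right
    · exact intervalIntegrable_iff.2 (by simp)
    · exact hy.stronglyMeasurableAtFilter isOpen_Ioi t ht
    · exact hy.continuousAt (Ioi_mem_nhds ht)
  have h3 := h2.const_add (z t)
  apply h3.congr_of_eventuallyEq
  filter_upwards [Ioi_mem_nhds ht] with s hs
  exact key s hs

theorem lid (hLia : LiaStmt) (hLib : LibStmt) (hLic : LicStmt) : LidStmt := by
  intro X Y H _ _ _ _ _ _ _ _ _ A W
  refine ⟨‖W.SX‖ + ‖W.RY‖ + 1, by positivity, ?_⟩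
  intro f t0 m N ht0 hm hN hJ hB
  have ht0' : 0 < t0 := by linarith
  obtain ⟨hd0, hd1, hc2⟩ := hJ
  have hc0 : ContinuousOn (f 0) (Ioi t0) := fun t ht => (hd0 t ht).continuousAt.continuousWithinAt
  have hc1 : ContinuousOn (f 1) (Ioi t0) := fun t ht => (hd1 t ht).continuousAt.continuousWithinAt
  have hb0 : ∀ t > t0, ‖f 0 t‖ ≤ N * t ^ (-m) := fun t ht => by
    have := hB t ht
    linarith [norm_nonneg (f 1 t), norm_nonneg (f 2 t)]
  have hb1 : ∀ t > t0, ‖f 1 t‖ ≤ N * t ^ (-m) := fun t ht => by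
    have := hB t ht
    linarith [norm_nonneg (f 0 t), norm_nonneg (f 2 t)]
  have hb2 : ∀ t > t0, ‖f 2 t‖ ≤ N * t ^ (-m) := fun t ht => by
    have := hB t ht
    linarith [norm_nonneg (f 0 t), norm_nonneg (f 1 t)]
  have hC := W.prp.C_le
  have hCc := W.prp.C_cont
  have hS := W.prp.Sn_le
  have hSc := W.prp.Sn_cont
  obtain ⟨-, hwv2c, hwv2b⟩ := hLia H W.C (f 2) t0 m N ht0' hm hC hCc hc2 hb2
  obtain ⟨-, hws2c, hws2b⟩ := hLia H W.Sn (f 2) t0 m N ht0' hm hS hSc hc2 hb2
  have hL12 := hLic X Y H A W (f 1) (f 2) t0 m N ht0' hm hc2 hd1 hb1 hb2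
  have hL01 := hLic X Y H A W (f 0) (f 1) t0 m N ht0' hm hc1 hd0 hb0 hb1
  have hD0 := hLib H W.C (f 0) (f 1) t0 m N ht0' hm hC hCc hc1 hd0 hb0 hb1
  have hD1 := hLib H W.C (f 1) (f 2) t0 m N ht0' hm hC hCc hc2 hd1 hb1 hb2
  have he : ∀ t > t0, A.e (- W.SX (f 1 t + wv W (f 2) t)) = wv W (f 0) t := by
    intro t ht
    obtain ⟨-, h2, h3, -⟩ := hL12 t ht
    obtain ⟨-, -, -, h4⟩ := hL01 t ht
    rw [map_neg, W.e_SX, add_comm, ← h2, h3, ← h4]
  have hj : ∀ t > t0, A.j (- W.RY (ws W (f 2) t)) = wv W (f 1) t := by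
    intro t ht
    obtain ⟨-, -, -, h4⟩ := hL12 t ht
    rw [map_neg, W.j_RY, ← h4]
  have hyc : ContinuousOn (fun t => - W.RY (ws W (f 2) t)) (Ioi t0) :=
    (W.RY.continuous.comp_continuousOn hws2c).neg
  refine ⟨⟨?_, hyc, hwv2c, ?_, ?_⟩, fun t ht => ⟨he t ht, hj t ht⟩, ?_, ?_⟩
  · exact (W.SX.continuous.comp_continuousOn (hc1.add hwv2c)).neg
  · apply hasDerivAt_of_inj A.j A.j_inj _ _ t0 hyc
    intro t ht
    rw [hj t ht]
    apply (hD0 t ht).congr_of_eventuallyEq
    filter_upwards [Ioi_mem_nhds ht] with s hs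
    exact he s hs
  · intro t ht
    apply (hD1 t ht).congr_of_eventuallyEq
    filter_upwards [Ioi_mem_nhds ht] with s hs
    exact hj s hs
  · intro t ht
    -- the sum of the norms
    have hid : ∀ (τ : ℝ) (h : H), ‖(ContinuousLinearMap.id ℝ H) h‖ ≤ ‖h‖ := fun τ h => le_rfl
    have i0 := (hLia H (fun _ => ContinuousLinearMap.id ℝ H) (f 0) t0 m N ht0' hm hid
      (fun h => continuous_const) hc0 hb0).1 t ht
    have i1 := (hLia H (fun _ => ContinuousLinearMap.id ℝ H) (f 1) t0 m N ht0' hm hid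
      (fun h => continuous_const) hc1 hb1).1 t ht
    have i2 := (hLia H (fun _ => ContinuousLinearMap.id ℝ H) (f 2) t0 m N ht0' hm hid
      (fun h => continuous_const) hc2 hb2).1 t ht
    simp only [ContinuousLinearMap.id_apply] at i0 i1 i2
    have hs := (hLia ℝ (fun _ => ContinuousLinearMap.id ℝ ℝ)
      (fun t => ‖f 0 t‖ + ‖f 1 t‖ + ‖f 2 t‖) t0 m N ht0' hm (fun _ _ => le_rfl)
      (fun h => continuous_const) ((hc0.norm.add hc1.norm).add hc2.norm)
      (fun t ht => by
        rw [Real.norm_of_nonneg (by positivity)]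
        exact hB t ht)).2.2 t ht
    simp only [ContinuousLinearMap.id_apply] at hs
    have n0 : ‖wv W (f 0) t‖ ≤ ∫ τ in Ioi (0 : ℝ), ‖f 0 (t + τ)‖ :=
      MeasureTheory.norm_integral_le_of_norm_le i0.norm
        (Filter.Eventually.of_forall fun τ => hC τ _)
    have n1 : ‖wv W (f 1) t‖ ≤ ∫ τ in Ioi (0 : ℝ), ‖f 1 (t + τ)‖ :=
      MeasureTheory.norm_integral_le_of_norm_le i1.norm
        (Filter.Eventually.of_forall fun τ => hC τ _)
    have n2 : ‖wv W (f 2) t‖ ≤ ∫ τ in Ioi (0 : ℝ), ‖f 2 (t + τ)‖ :=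
      MeasureTheory.norm_integral_le_of_norm_le i2.norm
        (Filter.Eventually.of_forall fun τ => hC τ _)
    have hsum : (∫ τ in Ioi (0 : ℝ), (‖f 0 (t + τ)‖ + ‖f 1 (t + τ)‖ + ‖f 2 (t + τ)‖)) =
        (∫ τ in Ioi (0 : ℝ), ‖f 0 (t + τ)‖) + (∫ τ in Ioi (0 : ℝ), ‖f 1 (t + τ)‖) +
          ∫ τ in Ioi (0 : ℝ), ‖f 2 (t + τ)‖ := by
      rw [MeasureTheory.integral_add, MeasureTheory.integral_add]
      · exact i0.norm
      · exact i1.norm
      · exact i0.norm.add i1.norm
      · exact i2.norm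
    have hle := (le_abs_self _).trans hs
    rw [hsum] at hle
    linarith
  · intro t ht
    have htp : 0 < t := ht0'.trans ht
    have ht1 : 1 ≤ t := ht0.trans ht.le
    set B : ℝ := N * t ^ (1 - m) with hBdef
    have hBn : 0 ≤ B := mul_nonneg hN (Real.rpow_nonneg htp.le _)
    set k : ℝ := 1 / (m - 1) with hk
    have hk0 : 0 ≤ k := by
      rw [hk]
      apply div_nonneg zero_le_one
      linarith
    have hNk : N / (m - 1) * t ^ (1 - m) = k * B := by
      rw [hk, hBdef]; ring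
    have h1 : ‖f 1 t‖ ≤ B := by
      apply (hb1 t ht).trans
      apply mul_le_mul_of_nonneg_left _ hN
      apply Real.rpow_le_rpow_of_exponent_le ht1
      linarith
    have h2 : ‖wv W (f 2) t‖ ≤ k * B := by
      have := hwv2b t ht
      rw [hNk] at this
      exact this
    have h3 : ‖ws W (f 2) t‖ ≤ k * B := by
      have := hws2b t ht
      rw [hNk] at this
      exact this
    have h4 : ‖- W.SX (f 1 t + wv W (f 2) t)‖ ≤ ‖W.SX‖ * (B + k * B) := by
      rw [norm_neg]
      apply (W.SX.le_opNorm _).trans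
      apply mul_le_mul_of_nonneg_left _ (norm_nonneg _)
      exact (norm_add_le _ _).trans (add_le_add h1 h2)
    have h5 : ‖- W.RY (ws W (f 2) t)‖ ≤ ‖W.RY‖ * (k * B) := by
      rw [norm_neg]
      apply (W.RY.le_opNorm _).trans
      exact mul_le_mul_of_nonneg_left h3 (norm_nonneg _)
    have h6 : (‖W.SX‖ + ‖W.RY‖ + 1) * (1 + k) * N * t ^ (1 - m) =
        (‖W.SX‖ + ‖W.RY‖ + 1) * (1 + k) * B := by rw [hBdef]; ring
    rw [h6]
    have p1 := mul_nonneg (norm_nonneg W.RY) hBn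
    have p2 : 0 ≤ ‖W.SX‖ := norm_nonneg _
    nlinarith [mul_nonneg hk0 hBn]

end

end Pool.Agent.Helper26_BE01
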